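import Pool.Agent.Helper220.ISAP.Fin
import Pool.Agent.Helper220.ForceCH

set_option autoImplicit false
set_option linter.all false

namespace Pool.Agent.Results.MP_ce029f_lc.IsomorphicQuotients

open Set TopologicalSpace
open Pool.Agent.Helper220.ForceCH (Om OmegaOnePreserved DiamondHolds)

/-- `C` is a closed unbounded subset of `ω₁` (the sentence named by `IsClubName`) -/
def IsClub (C : Om → Prop) : Prop :=
  (∀ a : Om, ∃ b : Om, a < b ∧ C b) ∧
    ∀ a : Om, (∃ b, b < a) → (∀ b : Om, b < a → ∃ c : Om, (b < c ∧ c < a) ∧ C c) → C a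

/-- diamond: the sentence which `DiamondHolds P` says is forced, evaluated in the universe -/
def Diamond : Prop :=
  ∃ A : Om → Om → Prop, ∀ S : Om → Prop, ∀ C : Om → Prop,
    IsClub C → ∃ a : Om, C a ∧ ∀ b : Om, b < a → (S b ↔ A a b)

/-- a quotient of a Boolean ring by an ideal is a Boolean ring -/
instance quotientBooleanRing {R : Type} [BooleanRing R] (I : Ideal R) : BooleanRing (R ⧸ I) where
  isIdempotentElem := by
    intro x
    obtain ⟨a, rfl⟩ := Ideal.Quotient.mk_surjective x
    show Ideal.Quotient.mk I a * Ideal.Quotient.mk I a = Ideal.Quotient.mk I a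
    rw [← map_mul, BooleanRing.mul_self]

/-- the quotient algebra `B/J`: the ideals of the Boolean algebra `B` are the ideals of the
associated Boolean ring -/
abbrev QuotientAlgebra (B : Type) [BooleanAlgebra B] (J : Ideal (AsBoolRing B)) : Type :=
  AsBoolAlg (AsBoolRing B ⧸ J)

/-- the isomorphic subalgebra property: `B` is uncountable and every uncountable subalgebra of
`B` is isomorphic to `B` -/
def ISAP (B : Type) [BooleanAlgebra B] : Prop :=
  Uncountable B ∧ ∀ A : BooleanSubalgebra B, Uncountable A → Nonempty (A ≃o B)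

/-- the quotient map -/
def quotientHom {B : Type} [BooleanAlgebra B] (J : Ideal (AsBoolRing B)) :
    BoundedLatticeHom B (QuotientAlgebra B J) :=
  (RingHom.asBoolAlg (Ideal.Quotient.mk J)).comp
    ((OrderIso.asBoolAlgAsBoolRing B).symm : BoundedLatticeHom B (AsBoolAlg (AsBoolRing B)))

lemma quotientHom_surjective {B : Type} [BooleanAlgebra B] (J : Ideal (AsBoolRing B)) :
    Function.Surjective (quotientHom J) := by
  intro x
  obtain ⟨a, ha⟩ := Ideal.Quotient.mk_surjective (ofBoolAlg x)
  refine ⟨ofBoolRing a, ?_⟩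
  show toBoolAlg (Ideal.Quotient.mk J (toBoolRing (ofBoolRing a))) = x
  rw [toBoolRing_ofBoolRing, ha, toBoolAlg_ofBoolAlg]

lemma old_diamond (h : Diamond) : Pool.Agent.Helper220.ISAP.Diamond := by
  obtain ⟨A, hA⟩ := h
  refine ⟨fun a => {x | x < a ∧ A a x}, fun S E hE => ?_⟩
  obtain ⟨a, ha, hb⟩ := hA (fun x => x ∈ S) (fun x => x ∈ E) ⟨fun b => by
      obtain ⟨a, h1, h2⟩ := hE.1 b
      exact ⟨a, h2, h1⟩, fun a ha h => by
      refine hE.2 a ha ?_
      intro b hb
      obtain ⟨c, ⟨h1, h2⟩, h3⟩ := h b hb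
      exact ⟨c, h3, h1, h2⟩⟩
  refine ⟨a, ha, ?_⟩
  ext x
  constructor
  · rintro ⟨h1, h2⟩
    exact ⟨(hb x h1).2 h2, h1⟩
  · rintro ⟨h1, h2⟩
    exact ⟨h2, (hb x h2).1 h1⟩

/-- (1) Some forcing notion forces Jensen's diamond principle and preserves `ω₁`. (2) Diamond implies
that there is an uncountable Boolean algebra `B` with the isomorphic subalgebra property all of
whose uncountable quotients are isomorphic to `B` and all of whose countable quotients are
isomorphic to factors of `B`. -/
theorem result :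
    (∃ (P : Type) (_ : Preorder P), Nonempty P ∧ ∀ p : P,
      p ∈ OmegaOnePreserved P ∧ p ∈ DiamondHolds P) ∧
    (Diamond → ∃ (B : Type) (_ : BooleanAlgebra B), Uncountable B ∧ ISAP B ∧
      (∀ J : Ideal (AsBoolRing B), Uncountable (QuotientAlgebra B J) →
        Nonempty (QuotientAlgebra B J ≃o B)) ∧
      (∀ J : Ideal (AsBoolRing B), Countable (QuotientAlgebra B J) →
        ∃ b : B, Nonempty (QuotientAlgebra B J ≃o Set.Iic b))) := by
  constructor
  · obtain ⟨P, hP, hne, h⟩ := Pool.Agent.Helper220.ForceCH.exists_forcing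
    exact ⟨P, hP, hne, fun p => ⟨(h p).1, (h p).2.1⟩⟩
  · intro h
    obtain ⟨s, hA, hN, hK⟩ := Pool.Agent.Helper220.ISAP.main_system (old_diamond h)
    refine ⟨Clopens (Pool.Agent.Helper220.ISAP.XX s), inferInstance,
      Pool.Agent.Helper220.ISAP.uncountable_clopens s,
      ⟨Pool.Agent.Helper220.ISAP.uncountable_clopens s,
        fun L hL => Pool.Agent.Helper220.ISAP.cond1 hA hN hK L hL⟩, ?_, ?_⟩
    · intro J hJ
      exact Pool.Agent.Helper220.ISAP.cond2 hA hN hK (quotientHom J) (quotientHom_surjective J) hJ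
    · intro J hJ
      exact Pool.Agent.Helper220.ISAP.cond3 hA hN (quotientHom J) (quotientHom_surjective J) hJ

end Pool.Agent.Results.MP_ce029f_lc.IsomorphicQuotients
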